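import Pool.Agent.Q34.SP.Blocks

/-!
# Coverings of the simple critical zeros by short windows
-/

set_option autoImplicit false

open Complex Filter Topology Set MeasureTheory
open scoped BigOperators ComplexConjugate

namespace Pool.Agent.Q34.SP

open H370

/-- greedy selection of a separated subset -/
lemma greedy {w : ℝ} (hw : 0 < w) : ∀ (n : ℕ) (S : Finset ℝ), S.card ≤ n →
    ∃ A ⊆ S, (∀ x ∈ A, ∀ y ∈ A, x ≠ y → w < |x - y|) ∧ ∀ x ∈ S, ∃ a ∈ A, a ≤ x ∧ x ≤ a + w := by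
  classical
  intro n
  induction n with
  | zero =>
    intro S hS
    have h : S = ∅ := Finset.card_eq_zero.1 (Nat.le_zero.1 hS)
    subst h
    exact ⟨∅, Finset.Subset.refl _, by simp, by simp⟩
  | succ n ih =>
    intro S hS
    rcases S.eq_empty_or_nonempty with rfl | hne
    · exact ⟨∅, Finset.Subset.refl _, by simp, by simp⟩
    set m := S.min' hne with hm
    have hmS : m ∈ S := S.min'_mem hne
    have hmin : ∀ x ∈ S, m ≤ x := fun x hx => S.min'_le x hx
    set S' := S.filter (fun x => m + w < x) with hS'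
    have hm' : m ∉ S' := by
      rw [hS', Finset.mem_filter]
      push Not
      intro _
      linarith
    have hcard : S'.card ≤ n := by
      have h1 : S' ⊆ S.erase m := fun x hx =>
        Finset.mem_erase.2 ⟨fun h => hm' (h ▸ hx), (Finset.mem_filter.1 hx).1⟩
      have h2 := Finset.card_le_card h1
      rw [Finset.card_erase_of_mem hmS] at h2
      omega
    obtain ⟨A, hA, hsep, hcov⟩ := ih S' hcard
    refine ⟨insert m A, ?_, ?_, ?_⟩
    · intro x hx
      rcases Finset.mem_insert.1 hx with rfl | hx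
      · exact hmS
      · exact (Finset.mem_filter.1 (hA hx)).1
    · intro x hx y hy hxy
      rcases Finset.mem_insert.1 hx with rfl | hx
      · rcases Finset.mem_insert.1 hy with rfl | hy
        · exact absurd rfl hxy
        · have h := (Finset.mem_filter.1 (hA hy)).2
          rw [abs_sub_comm, abs_of_pos (by linarith)]
          linarith
      · rcases Finset.mem_insert.1 hy with rfl | hy
        · have h := (Finset.mem_filter.1 (hA hx)).2
          rw [abs_of_pos (by linarith)]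
          linarith
        · exact hsep x hx y hy hxy
    · intro x hx
      by_cases h : m + w < x
      · obtain ⟨a, ha, h1⟩ := hcov x (Finset.mem_filter.2 ⟨hx, h⟩)
        exact ⟨a, Finset.mem_insert_of_mem ha, h1⟩
      · exact ⟨m, Finset.mem_insert_self _ _, hmin x hx, by linarith⟩

/-- the gain of a finite set covered by windows -/
lemma gain_cover {lam c0 : ℝ} (hc0 : 0 ≤ c0) (hB : BlockGain lam c0) {Λ w : ℝ} (hΛ : 0 < Λ) (hw : 0 < w)
    (hΛw : Λ * w ≤ 2 * Real.pi * lam) (hws : w ^ 2 ≤ 8 / 10 ^ 4) (S P : Finset ℝ)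
    (hcov : ∀ x ∈ S, ∃ p ∈ P, p ≤ x ∧ x ≤ p + w) : Gain Λ S ((S.card : ℝ) - c0 * P.card) := by
  classical
  choose! p hp using hcov
  have hun : P.biUnion (fun q => S.filter (fun x => p x = q)) = S := by
    ext x
    simp only [Finset.mem_biUnion, Finset.mem_filter]
    constructor
    · rintro ⟨q, _, h, _⟩
      exact h
    · intro h
      exact ⟨p x, (hp x h).1, h, rfl⟩
  have hdis : ∀ i ∈ P, ∀ j ∈ P, i ≠ j →
      Disjoint (S.filter (fun x => p x = i)) (S.filter (fun x => p x = j)) := by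
    intro i _ j _ hij
    rw [Finset.disjoint_left]
    intro x hx hx'
    exact hij ((Finset.mem_filter.1 hx).2.symm.trans (Finset.mem_filter.1 hx').2)
  have hg : ∀ q ∈ P, Gain Λ (S.filter (fun x => p x = q)) (((S.filter (fun x => p x = q)).card : ℝ) - c0) := by
    intro q _
    rcases (S.filter (fun x => p x = q)).eq_empty_or_nonempty with h | h
    · rw [h]
      exact (gain_zero Λ ∅).mono (by simpa using hc0)
    · refine hB Λ w hΛ hw hΛw hws _ (fun x hx y hy => ?_) h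
      obtain ⟨hx1, hx2⟩ := Finset.mem_filter.1 hx
      obtain ⟨hy1, hy2⟩ := Finset.mem_filter.1 hy
      obtain ⟨_, a1, a2⟩ := hp x hx1
      obtain ⟨_, b1, b2⟩ := hp y hy1
      rw [hx2] at a1 a2
      rw [hy2] at b1 b2
      rw [abs_le]
      constructor <;> linarith
  have h := gain_biUnion P (fun q => S.filter (fun x => p x = q))
    (fun q => ((S.filter (fun x => p x = q)).card : ℝ) - c0) hdis hg
  have hcard : (S.card : ℝ) = ∑ q ∈ P, ((S.filter (fun x => p x = q)).card : ℝ) := by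
    have h1 := Finset.card_biUnion hdis
    rw [hun] at h1
    rw [h1]
    push_cast
    rfl
  rw [hun] at h
  refine h.mono (le_of_eq ?_)
  rw [Finset.sum_sub_distrib, ← hcard, Finset.sum_const, nsmul_eq_mul]
  ring

lemma SF_subset {F : ℂ → ℂ} (hF : GoodL F) {T U1 U2 : ℝ} (hT : 1 ≤ T) (h1 : T ≤ U1) (h2 : U2 ≤ 2 * T) :
    SF F U1 U2 ⊆ SF F T (2 * T) := by
  classical
  intro x hx
  unfold SF at hx ⊢
  rw [Finset.mem_image] at hx ⊢
  obtain ⟨s, hs, rfl⟩ := hx
  refine ⟨s, ?_, rfl⟩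
  rw [Finset.mem_filter] at hs ⊢
  refine ⟨?_, hs.2⟩
  have h := hs.1
  rw [mem_Zf hF (hT.trans h1)] at h
  rw [mem_Zf hF hT]
  exact ⟨h.1, h.2.1, lt_of_le_of_lt h1 h.2.2.1, h.2.2.2.1.trans h2, h.2.2.2.2⟩

/-- **Coverings of the simple critical zeros by windows.** -/
theorem core {F : ℂ → ℂ} (hF : GoodL F) {lam c0 : ℝ} (hlam : 0 < lam) (hlam1 : lam ≤ 1) (hc0 : 0 ≤ c0)
    (hB : BlockGain lam c0) (ε : ℝ) (hε : 0 < ε) :
    ∃ δ : ℝ, 0 < δ ∧ ∃ T0 : ℝ, 10 ≤ T0 ∧ ∀ T : ℝ, T0 ≤ T → ∀ P : Finset ℝ,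
      (∀ x ∈ SF F T (2 * T), ∃ p ∈ P, p ≤ x ∧ x ≤ p + (1 + δ) * lam * (2 * Real.pi / Real.log T)) →
      (2 - cMTinv - ε) * (NN F T (2 * T) : ℝ) ≤ c0 * P.card := by
  set J : ℝ := ∫ α in (0 : ℝ)..1, α * Rf α with hJ
  have hJ0 : 0 ≤ J := Jint_nonneg
  have hR0 : 0 ≤ Rf 0 := Rf_nonneg 0
  have hcM : Rf 0 + 2 * J = cMTinv := Rf_const
  have hcM0 : 0 ≤ cMTinv := by rw [← hcM]; positivity
  set e : ℝ := min ε 1 with he
  have he0 : 0 < e := lt_min hε one_pos
  have he1 : e ≤ ε := min_le_left _ _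
  have he3 : e ≤ 1 := min_le_right _ _
  set η : ℝ := e / 80 with hη
  have hη0 : 0 < η := by positivity
  set κ : ℝ := min (1 / 4) (e / (8 * (Rf 0 + 1))) with hκ
  have hκ0 : 0 < κ := lt_min (by norm_num) (by positivity)
  have hκ1 : κ ≤ 1 / 4 := min_le_left _ _
  have hκ3 : κ * (8 * (Rf 0 + 1)) ≤ e := by
    have := min_le_right (1 / 4) (e / (8 * (Rf 0 + 1)))
    rw [← hκ, le_div_iff₀ (by positivity)] at this
    exact this
  have hκ4 : 2 * κ * Rf 0 ≤ e / 4 := by nlinarith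
  obtain ⟨T2, hT2, hPC⟩ := pair_corr hF κ η hκ0 (by linarith) hη0
  obtain ⟨C, hC, hends⟩ := NN_ends hF
  have hpi := Real.pi_pos
  refine ⟨κ, hκ0, max (max (Real.exp 1000) T2) (max 10 (2 * Real.pi * C * 32 / e)),
    (le_max_left _ _).trans (le_max_right _ _), fun T hT P hP => ?_⟩
  have hTexp : Real.exp 1000 ≤ T := ((le_max_left _ _).trans (le_max_left _ _)).trans hT
  have hTT2 : T2 ≤ T := ((le_max_right _ _).trans (le_max_left _ _)).trans hT
  have hT10 : 10 ≤ T := ((le_max_left _ _).trans (le_max_right _ _)).trans hT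
  have hTC : 2 * Real.pi * C * 32 / e ≤ T := ((le_max_right _ _).trans (le_max_right _ _)).trans hT
  obtain ⟨U1, U2, hU1, hU1', hU2, hU2', hNN, hQQ⟩ := hPC T hTT2
  have hLe : 1000 ≤ Real.log T := by
    rw [Real.le_log_iff_exp_le (by linarith)]
    exact hTexp
  have hL : 0 < Real.log T := by linarith
  rcases le_or_gt (2 - cMTinv - ε) 0 with hneg | hpos
  · exact (mul_nonpos_of_nonpos_of_nonneg hneg (Nat.cast_nonneg _)).trans (by positivity)
  set M : ℝ := T * Real.log T / (2 * Real.pi) with hM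
  have hM0 : 0 < M := by positivity
  have hTL : T * Real.log T = 2 * Real.pi * M := by rw [hM]; field_simp
  rw [hTL] at hNN
  have hpi2 : Real.pi < 3.15 := Real.pi_lt_d2
  have hηM : η * (2 * Real.pi * M) ≤ (7 * e / 80) * M := by
    have : 2 * Real.pi ≤ 7 := by linarith
    calc η * (2 * Real.pi * M) = (η * M) * (2 * Real.pi) := by ring
      _ ≤ (η * M) * 7 := by
        apply mul_le_mul_of_nonneg_left this (by positivity)
      _ = (7 * e / 80) * M := by rw [hη]; ring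
  obtain ⟨hNNl, hNNu⟩ := abs_le.mp hNN
  have h1e : 1 / (1 - κ) ≤ 1 + 2 * κ := by
    rw [div_le_iff₀ (by linarith)]
    nlinarith
  have hQ2 : QQ F ((1 - κ) * Real.log T) U1 U2 ≤ M * (cMTinv + 2 * κ * Rf 0 + η) := by
    refine hQQ.trans ?_
    apply mul_le_mul_of_nonneg_left _ hM0.le
    have : Rf 0 / (1 - κ) ≤ (1 + 2 * κ) * Rf 0 := by
      rw [div_eq_mul_one_div, mul_comm]
      exact mul_le_mul_of_nonneg_right h1e hR0
    have h2 : 2 * (1 - κ) * J ≤ 2 * J := by nlinarith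
    rw [← hcM]
    linarith
  have hQ3 : QQ F ((1 - κ) * Real.log T) U1 U2 ≤ M * (cMTinv + e / 4 + e / 80) := by
    refine hQ2.trans ?_
    apply mul_le_mul_of_nonneg_left _ hM0.le
    rw [hη]; linarith
  have hU : 1 ≤ U1 := by linarith
  have hΛ : 0 < (1 - κ) * Real.log T := mul_pos (by linarith) hL
  set w : ℝ := (1 + κ) * lam * (2 * Real.pi / Real.log T) with hw
  have hw0 : 0 < w := by positivity
  have hΛw : (1 - κ) * Real.log T * w ≤ 2 * Real.pi * lam := by
    have h1 : (1 - κ) * Real.log T * w = (1 - κ ^ 2) * (2 * Real.pi * lam) := by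
      rw [hw]
      field_simp
      ring
    rw [h1]
    have h2 : 0 ≤ κ ^ 2 * (2 * Real.pi * lam) := by positivity
    linarith
  have hws : w ^ 2 ≤ 8 / 10 ^ 4 := by
    have h1 : w ≤ 8 / 1000 := by
      have h2 : w ≤ (1 + κ) * 1 * (2 * Real.pi / 1000) := by
        rw [hw]
        gcongr
      refine h2.trans ?_
      nlinarith
    calc w ^ 2 ≤ (8 / 1000) ^ 2 := pow_le_pow_left₀ hw0.le h1 2
      _ ≤ 8 / 10 ^ 4 := by norm_num
  obtain ⟨Y, hY, hYT⟩ := gain_cover hc0 hB hΛ hw0 hΛw hws (SF F U1 U2) P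
    (fun x hx => hP x (SF_subset hF (by linarith) hU1 hU2' hx))
  obtain ⟨hb1, -⟩ := trace_zeros hF hU ((1 - κ) * Real.log T) Y hY
  rw [Ns_card hF hU] at hb1
  have hend := hends T hT10 U1 U2 hU1 hU1' hU2 hU2'
  have hCL : C * Real.log T ≤ e / 32 * M := by
    rw [hM]
    rw [div_le_iff₀ he0] at hTC
    have : e / 32 * (T * Real.log T / (2 * Real.pi)) =
      (T * e) * (Real.log T / (64 * Real.pi)) := by ring
    rw [this]
    calc C * Real.log T = (2 * Real.pi * C * 32) * (Real.log T / (64 * Real.pi)) := by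
          field_simp; ring
      _ ≤ (T * e) * (Real.log T / (64 * Real.pi)) :=
        mul_le_mul_of_nonneg_right hTC (by positivity)
  have hNtot : (NN F T (2 * T) : ℝ) ≤ M * (1 + 7 * e / 80 + e / 32) := by linarith
  calc (2 - cMTinv - ε) * (NN F T (2 * T) : ℝ)
      ≤ (2 - cMTinv - ε) * (M * (1 + 7 * e / 80 + e / 32)) :=
        mul_le_mul_of_nonneg_left hNtot hpos.le
    _ ≤ (2 - cMTinv - e / 2) * M := by
        have h5 : (2 - cMTinv - ε) * (7 * e / 80 + e / 32) ≤ 2 * (7 * e / 80 + e / 32) :=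
          mul_le_mul_of_nonneg_right (by linarith) (by positivity)
        have h6 : (2 - cMTinv - ε) * (1 + 7 * e / 80 + e / 32) ≤ 2 - cMTinv - e / 2 := by
          nlinarith
        calc (2 - cMTinv - ε) * (M * (1 + 7 * e / 80 + e / 32))
            = ((2 - cMTinv - ε) * (1 + 7 * e / 80 + e / 32)) * M := by ring
          _ ≤ _ := mul_le_mul_of_nonneg_right h6 hM0.le
    _ ≤ c0 * P.card := by
        have h8 : 0 ≤ e * M := by positivity
        linarith

/-- **Separated subsets of the simple critical zeros.** -/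
theorem separated {F : ℂ → ℂ} (hF : GoodL F) {lam c0 : ℝ} (hlam : 0 < lam) (hlam1 : lam ≤ 1) (hc0 : 0 ≤ c0)
    (hB : BlockGain lam c0) (ε : ℝ) (hε : 0 < ε) :
    ∃ δ : ℝ, 0 < δ ∧ ∃ T0 : ℝ, 10 ≤ T0 ∧ ∀ T : ℝ, T0 ≤ T →
      (∃ A ⊆ SF F T (2 * T), (∀ x ∈ A, ∀ y ∈ A, x ≠ y → (1 + δ) * lam * (2 * Real.pi / Real.log T) < |x - y|) ∧
        (2 - cMTinv - ε) * (NN F T (2 * T) : ℝ) ≤ c0 * A.card) ∧
      ∀ P : Finset ℝ,
      (∀ x ∈ SF F T (2 * T), ∃ p ∈ P, p ≤ x ∧ x ≤ p + (1 + δ) * lam * (2 * Real.pi / Real.log T)) →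
      (2 - cMTinv - ε) * (NN F T (2 * T) : ℝ) ≤ c0 * P.card := by
  obtain ⟨δ, hδ, T0, hT0, h⟩ := core hF hlam hlam1 hc0 hB ε hε
  refine ⟨δ, hδ, T0, hT0, fun T hT => ⟨?_, h T hT⟩⟩
  have hL : 0 < Real.log T := Real.log_pos (by linarith)
  have hw : 0 < (1 + δ) * lam * (2 * Real.pi / Real.log T) := by
    have := Real.pi_pos
    positivity
  obtain ⟨A, hA, hsep, hcov⟩ := greedy hw _ (SF F T (2 * T)) le_rfl
  exact ⟨A, hA, hsep, h T hT A hcov⟩

end Pool.Agent.Q34.SP
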