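import Pool.Agent.Q34.SP.Ker

/-!
# Gains of all points in a window
-/

set_option autoImplicit false

open Complex Filter Topology Set MeasureTheory
open scoped BigOperators ComplexConjugate

namespace Pool.Agent.Q34.SP

open H370 H370.Expl

/-- gains of blocks in windows of length `lam` mean spacings -/
def BlockGain (lam c0 : ℝ) : Prop :=
  ∀ Λ w : ℝ, 0 < Λ → 0 < w → Λ * w ≤ 2 * Real.pi * lam → w ^ 2 ≤ 8 / 10 ^ 4 →
    ∀ B : Finset ℝ, (∀ x ∈ B, ∀ y ∈ B, |x - y| ≤ w) → B.Nonempty → Gain Λ B ((B.card : ℝ) - c0)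

lemma sq_small {x y w : ℝ} (h : |x - y| ≤ w) (hw : w ^ 2 ≤ 8 / 10 ^ 4) : (x - y) ^ 2 ≤ 8 / 10 ^ 4 := by
  rw [← sq_abs]
  exact (pow_le_pow_left₀ (abs_nonneg _) h 2).trans hw

theorem block_one : BlockGain (11 / 24) 1 := by
  classical
  intro Λ w hΛ hw hΛw hws B hB hne
  have hpi := Real.pi_pos
  have hphi : ∀ x ∈ B, ∀ y ∈ B, 0.708 * (1 - 1 / 10 ^ 4) ≤ (phi Λ ((x : ℂ) - y)).re := by
    intro x hx y hy
    refine phi_lower hΛ.le (x0 := 11 * Real.pi / 12) ?_ (by linarith) (by norm_num) KK_one
      (sq_small (hB x hx y hy) hws)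
    refine (mul_le_mul_of_nonneg_left (hB x hx y hy) hΛ.le).trans (hΛw.trans (le_of_eq ?_))
    ring
  have hc : 1 ≤ B.card := hne.card_pos
  rcases lt_or_ge B.card 3 with h3 | h3
  · interval_cases h : B.card
    · exact (gain_zero Λ B).mono (by norm_num)
    · obtain ⟨x, y, hxy, rfl⟩ := Finset.card_eq_two.1 h
      refine (gain_pair hxy (by norm_num) (hphi x (by simp) y (by simp))).mono ?_
      norm_num
  · refine (gain_cluster hc (by norm_num) (fun x hx y hy _ => hphi x hx y hy)).mono ?_
    have h4 : (3 : ℝ) ≤ B.card := by exact_mod_cast h3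
    norm_num
    nlinarith

theorem block_half : BlockGain (1 / 2) 1.1317 := by
  classical
  intro Λ w hΛ hw hΛw hws B hB hne
  have hpi := Real.pi_pos
  have hphi : ∀ x ∈ B, ∀ y ∈ B, 0.659 * (1 - 1 / 10 ^ 4) ≤ (phi Λ ((x : ℂ) - y)).re := by
    intro x hx y hy
    refine phi_lower hΛ.le (x0 := Real.pi) ?_ (by linarith) (by norm_num) KK_half
      (sq_small (hB x hx y hy) hws)
    refine (mul_le_mul_of_nonneg_left (hB x hx y hy) hΛ.le).trans (hΛw.trans (le_of_eq ?_))
    ring
  have hc : 1 ≤ B.card := hne.card_pos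
  rcases lt_or_ge B.card 3 with h3 | h3
  · interval_cases h : B.card
    · exact (gain_zero Λ B).mono (by norm_num)
    · obtain ⟨x, y, hxy, rfl⟩ := Finset.card_eq_two.1 h
      refine (gain_pair hxy (by norm_num) (hphi x (by simp) y (by simp))).mono ?_
      norm_num
  · refine (gain_cluster hc (by norm_num) (fun x hx y hy _ => hphi x hx y hy)).mono ?_
    have h4 : (3 : ℝ) ≤ B.card := by exact_mod_cast h3
    norm_num
    nlinarith

/-- the gain of `n` points in a window of half the mean spacing -/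
noncomputable def gh (n : ℕ) : ℝ := if n ≤ 1 then 0 else if n = 2 then 0.868 else ((n : ℝ) - 1) * 1.752 - 1

lemma half_gain {Λ : ℝ} (hΛ : 0 < Λ) (C : Finset ℝ) (h1 : ∀ x ∈ C, ∀ y ∈ C, Λ * |x - y| ≤ Real.pi)
    (h2 : ∀ x ∈ C, ∀ y ∈ C, (x - y) ^ 2 ≤ 8 / 10 ^ 4) : Gain Λ C (gh C.card) := by
  classical
  have hpi := Real.pi_pos
  have hphi : ∀ x ∈ C, ∀ y ∈ C, 0.659 * (1 - 1 / 10 ^ 4) ≤ (phi Λ ((x : ℂ) - y)).re := by
    intro x hx y hy
    exact phi_lower hΛ.le (h1 x hx y hy) (by linarith) (by norm_num) KK_half (h2 x hx y hy)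
  unfold gh
  split_ifs with h3 h4
  · exact gain_zero Λ C
  · obtain ⟨x, y, hxy, rfl⟩ := Finset.card_eq_two.1 h4
    refine (gain_pair hxy (by norm_num) (hphi x (by simp) y (by simp))).mono ?_
    norm_num
  · have h5 : 3 ≤ C.card := by omega
    refine (gain_cluster (by omega) (by norm_num) (fun x hx y hy _ => hphi x hx y hy)).mono ?_
    have h6 : (3 : ℝ) ≤ C.card := by exact_mod_cast h5
    norm_num
    nlinarith

lemma gh_add (a b : ℕ) (h : 5 ≤ a + b) : ((a + b : ℕ) : ℝ) - 2 ≤ gh a + gh b := by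
  have key : ∀ a b : ℕ, a ≤ b → 5 ≤ a + b → ((a + b : ℕ) : ℝ) - 2 ≤ gh a + gh b := by
    intro a b hab h
    have hb : 3 ≤ b := by omega
    have hbr : (3 : ℝ) ≤ b := by exact_mod_cast hb
    have hgb : gh b = ((b : ℝ) - 1) * 1.752 - 1 := by
      unfold gh
      rw [if_neg (by omega), if_neg (by omega)]
    rw [hgb]
    push_cast
    rcases lt_or_ge a 3 with h3 | h3
    · interval_cases a
      · unfold gh
        norm_num
        linarith
      · unfold gh
        norm_num
        linarith
      · unfold gh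
        norm_num
        linarith
    · have hga : gh a = ((a : ℝ) - 1) * 1.752 - 1 := by
        unfold gh
        rw [if_neg (by omega), if_neg (by omega)]
      have har : (3 : ℝ) ≤ a := by exact_mod_cast h3
      rw [hga]
      norm_num
      linarith
  rcases le_total a b with hab | hab
  · exact key a b hab h
  · have := key b a hab (by omega)
    rw [add_comm a b, add_comm (gh a)]
    exact this

theorem block_full : BlockGain 1 2 := by
  classical
  intro Λ w hΛ hw hΛw hws B hB hne
  have hpi := Real.pi_pos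
  have hΛw' : Λ * w ≤ 2 * Real.pi := by linarith
  have hsc : ∀ x ∈ B, ∀ y ∈ B, Λ * (x - y) ≤ 2 * Real.pi := fun x hx y hy =>
    (mul_le_mul_of_nonneg_left ((le_abs_self _).trans (hB x hx y hy)) hΛ.le).trans hΛw'
  have hsm : ∀ x ∈ B, ∀ y ∈ B, (x - y) ^ 2 ≤ 8 / 10 ^ 4 := fun x hx y hy => sq_small (hB x hx y hy) hws
  -- pairs and clusters
  have hpair : ∀ x ∈ B, ∀ y ∈ B, x < y → Λ * (y - x) ≤ 11 * Real.pi / 12 → Gain Λ {x, y} 1 := by
    intro x hx y hy hxy h
    refine (gain_pair (κ := 0.708 * (1 - 1 / 10 ^ 4)) hxy.ne (by norm_num) ?_).mono (by norm_num)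
    refine phi_lower hΛ.le (x0 := 11 * Real.pi / 12) ?_ (by linarith) (by norm_num) KK_one (hsm x hx y hy)
    rw [abs_of_neg (by linarith)]
    linarith
  have hmore : ∀ x ∈ B, ∀ y ∈ B, Λ * |x - y| ≤ 13 * Real.pi / 12 →
      0.6 * (1 - 1 / 10 ^ 4) ≤ (phi Λ ((x : ℂ) - y)).re := by
    intro x hx y hy h
    exact phi_lower hΛ.le h (by linarith) (by norm_num) KK_more (hsm x hx y hy)
  have htri : ∀ x ∈ B, ∀ y ∈ B, ∀ z ∈ B, x < y → y < z → Λ * (z - x) ≤ 13 * Real.pi / 12 →
      Gain Λ {x, y, z} 2 := by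
    intro x hx y hy z hz hxy hyz h
    have hcard : ({x, y, z} : Finset ℝ).card = 3 := by
      rw [Finset.card_eq_three]
      exact ⟨x, y, z, hxy.ne, (hxy.trans hyz).ne, hyz.ne, rfl⟩
    have hmem : ∀ u ∈ ({x, y, z} : Finset ℝ), u ∈ B ∧ x ≤ u ∧ u ≤ z := by
      intro u hu
      simp only [Finset.mem_insert, Finset.mem_singleton] at hu
      rcases hu with rfl | rfl | rfl
      · exact ⟨hx, le_rfl, (hxy.trans hyz).le⟩
      · exact ⟨hy, hxy.le, hyz.le⟩
      · exact ⟨hz, (hxy.trans hyz).le, le_rfl⟩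
    refine (gain_cluster (κ := 0.6 * (1 - 1 / 10 ^ 4)) (by omega) (by norm_num) (fun u hu v hv _ => ?_)).mono ?_
    · obtain ⟨a1, a2, a3⟩ := hmem u hu
      obtain ⟨b1, b2, b3⟩ := hmem v hv
      refine hmore u a1 v b1 (le_trans (mul_le_mul_of_nonneg_left ?_ hΛ.le) h)
      rw [abs_le]
      constructor <;> linarith
    · rw [hcard]
      norm_num
  have hc : 1 ≤ B.card := hne.card_pos
  rcases lt_or_ge B.card 5 with h5 | h5
  · interval_cases h : B.card
    · exact (gain_zero Λ B).mono (by norm_num)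
    · exact (gain_zero Λ B).mono (by norm_num)
    · -- three points
      set f := B.orderEmbOfFin h with hf
      have hm : ∀ i, f i ∈ B := fun i => Finset.orderEmbOfFin_mem B h i
      have h01 : f 0 < f 1 := f.strictMono (by decide)
      have h12 : f 1 < f 2 := f.strictMono (by decide)
      have htot := hsc _ (hm 2) _ (hm 0)
      rcases le_or_gt (Λ * (f 1 - f 0)) (11 * Real.pi / 12) with ha | ha
      · refine (gain_subset ?_ (hpair _ (hm 0) _ (hm 1) h01 ha)).mono (by norm_num)
        intro u hu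
        simp only [Finset.mem_insert, Finset.mem_singleton] at hu
        rcases hu with rfl | rfl <;> exact hm _
      rcases le_or_gt (Λ * (f 2 - f 1)) (11 * Real.pi / 12) with hb | hb
      · refine (gain_subset ?_ (hpair _ (hm 1) _ (hm 2) h12 hb)).mono (by norm_num)
        intro u hu
        simp only [Finset.mem_insert, Finset.mem_singleton] at hu
        rcases hu with rfl | rfl <;> exact hm _
      have e : Λ * (f 2 - f 0) = Λ * (f 1 - f 0) + Λ * (f 2 - f 1) := by ring
      have g1 : 0.6 * (1 - 1 / 10 ^ 4) ≤ (phi Λ (((f 1 : ℝ) : ℂ) - (f 0 : ℝ))).re := by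
        refine hmore _ (hm 1) _ (hm 0) ?_
        rw [abs_of_pos (by linarith)]
        linarith
      have g2 : 0.6 * (1 - 1 / 10 ^ 4) ≤ (phi Λ (((f 2 : ℝ) : ℂ) - (f 1 : ℝ))).re := by
        refine hmore _ (hm 2) _ (hm 1) ?_
        rw [abs_of_pos (by linarith)]
        linarith
      refine (gain_subset ?_ (gain_triple h01 h12 (by norm_num) g1 g2)).mono (by norm_num)
      intro u hu
      simp only [Finset.mem_insert, Finset.mem_singleton] at hu
      rcases hu with rfl | rfl | rfl <;> exact hm _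
    · -- four points
      set f := B.orderEmbOfFin h with hf
      have hm : ∀ i, f i ∈ B := fun i => Finset.orderEmbOfFin_mem B h i
      have h01 : f 0 < f 1 := f.strictMono (by decide)
      have h12 : f 1 < f 2 := f.strictMono (by decide)
      have h23 : f 2 < f 3 := f.strictMono (by decide)
      have htot := hsc _ (hm 3) _ (hm 0)
      have e1 : Λ * (f 3 - f 0) = Λ * (f 1 - f 0) + Λ * (f 3 - f 1) := by ring
      have e2 : Λ * (f 3 - f 0) = Λ * (f 2 - f 0) + Λ * (f 3 - f 2) := by ring
      rcases lt_or_ge (11 * Real.pi / 12) (Λ * (f 1 - f 0)) with ha | ha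
      · refine (gain_subset ?_ (htri _ (hm 1) _ (hm 2) _ (hm 3) h12 h23 (by linarith))).mono (by norm_num)
        intro u hu
        simp only [Finset.mem_insert, Finset.mem_singleton] at hu
        rcases hu with rfl | rfl | rfl <;> exact hm _
      rcases lt_or_ge (11 * Real.pi / 12) (Λ * (f 3 - f 2)) with hb | hb
      · refine (gain_subset ?_ (htri _ (hm 0) _ (hm 1) _ (hm 2) h01 h12 (by linarith))).mono (by norm_num)
        intro u hu
        simp only [Finset.mem_insert, Finset.mem_singleton] at hu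
        rcases hu with rfl | rfl | rfl <;> exact hm _
      have hd : Disjoint ({f 0, f 1} : Finset ℝ) {f 2, f 3} := by
        rw [Finset.disjoint_left]
        intro u hu hu'
        simp only [Finset.mem_insert, Finset.mem_singleton] at hu hu'
        rcases hu with rfl | rfl <;> rcases hu' with h' | h' <;> linarith
      refine (gain_subset ?_ (gain_union hd (hpair _ (hm 0) _ (hm 1) h01 ha)
        (hpair _ (hm 2) _ (hm 3) h23 hb))).mono (by norm_num)
      intro u hu
      simp only [Finset.mem_union, Finset.mem_insert, Finset.mem_singleton] at hu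
      rcases hu with (rfl | rfl) | (rfl | rfl) <;> exact hm _
  · -- at least five points
    set a := B.min' hne with ha
    have ham : a ∈ B := B.min'_mem hne
    have hamin : ∀ x ∈ B, a ≤ x := fun x hx => B.min'_le x hx
    set B1 := B.filter (fun x => Λ * (x - a) ≤ Real.pi) with hB1
    set B2 := B.filter (fun x => ¬ Λ * (x - a) ≤ Real.pi) with hB2
    have hun : B1 ∪ B2 = B := Finset.filter_union_filter_not_eq _ B
    have hd : Disjoint B1 B2 := Finset.disjoint_filter_filter_not B B _
    have hcard : B1.card + B2.card = B.card := by rw [← Finset.card_union_of_disjoint hd, hun]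
    have g1 : Gain Λ B1 (gh B1.card) := by
      refine half_gain hΛ B1 (fun x hx y hy => ?_) (fun x hx y hy => hsm x (Finset.mem_filter.1 hx).1 y
        (Finset.mem_filter.1 hy).1)
      obtain ⟨hx1, hx2⟩ := Finset.mem_filter.1 hx
      obtain ⟨hy1, hy2⟩ := Finset.mem_filter.1 hy
      have hx3 := mul_nonneg hΛ.le (sub_nonneg.2 (hamin x hx1))
      have hy3 := mul_nonneg hΛ.le (sub_nonneg.2 (hamin y hy1))
      rw [← abs_of_pos hΛ, ← abs_mul, abs_le]
      constructor <;> nlinarith
    have g2 : Gain Λ B2 (gh B2.card) := by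
      refine half_gain hΛ B2 (fun x hx y hy => ?_) (fun x hx y hy => hsm x (Finset.mem_filter.1 hx).1 y
        (Finset.mem_filter.1 hy).1)
      obtain ⟨hx1, hx2⟩ := Finset.mem_filter.1 hx
      obtain ⟨hy1, hy2⟩ := Finset.mem_filter.1 hy
      push Not at hx2 hy2
      have hx3 := hsc x hx1 a ham
      have hy3 := hsc y hy1 a ham
      rw [← abs_of_pos hΛ, ← abs_mul, abs_le]
      constructor <;> nlinarith
    have g := gain_union hd g1 g2
    rw [hun] at g
    refine g.mono ?_
    have := gh_add B1.card B2.card (by omega)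
    rw [hcard] at this
    exact this

end Pool.Agent.Q34.SP
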