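import Pool.Agent.H370R2.Fin4

/-!
# Gains from blocks of close points

`Gain Λ S r`: some test matrix supported on `S` gives at least `r` in the trace inequality of the unconditional
Montgomery-Taylor theorem (`H370.trace_zeros`). Gains of disjoint sets add up; pairs, triples and clusters of points
with large values of the kernel have explicit gains.
-/

set_option autoImplicit false

open Complex Filter Topology Set MeasureTheory
open scoped BigOperators ComplexConjugate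

namespace Pool.Agent.Q34.SP

open H370

/-- some test matrix on `S` has gain at least `r` -/
def Gain (Λ : ℝ) (S : Finset ℝ) (r : ℝ) : Prop :=
  ∃ Y : ℝ → ℝ → ℝ,
    (∀ v : ℝ → ℂ, ∑ x ∈ S, ∑ y ∈ S, Y x y * (conj (v x) * v y).re ≤ ∑ x ∈ S, ‖v x‖ ^ 2) ∧ r ≤ YT Λ S Y

lemma Gain.mono {Λ : ℝ} {S : Finset ℝ} {r r' : ℝ} (h : Gain Λ S r) (hr : r' ≤ r) : Gain Λ S r' := by
  obtain ⟨Y, h1, h2⟩ := h
  exact ⟨Y, h1, hr.trans h2⟩

lemma gain_zero (Λ : ℝ) (S : Finset ℝ) : Gain Λ S 0 := by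
  refine ⟨fun _ _ => 0, fun v => ?_, ?_⟩
  · simp only [zero_mul, Finset.sum_const_zero]
    exact Finset.sum_nonneg fun x _ => by positivity
  · unfold YT
    simp

/-- sums over a disjoint union of a function supported on the two squares -/
lemma sum_split {A B : Finset ℝ} (hd : Disjoint A B) (YA YB : ℝ → ℝ → ℝ) (G : ℝ → ℝ → ℝ → ℝ)
    (hG : ∀ x y, G x y 0 = 0) :
    ∑ x ∈ A ∪ B, ∑ y ∈ A ∪ B, G x y (if x ∈ A ∧ y ∈ A then YA x y else if x ∈ B ∧ y ∈ B then YB x y else 0) =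
      ∑ x ∈ A, ∑ y ∈ A, G x y (YA x y) + ∑ x ∈ B, ∑ y ∈ B, G x y (YB x y) := by
  classical
  rw [Finset.sum_union hd]
  congr 1
  · refine Finset.sum_congr rfl fun x hx => ?_
    have hxB : x ∉ B := Finset.disjoint_left.1 hd hx
    rw [Finset.sum_union hd]
    have h2 : ∑ y ∈ B, G x y (if x ∈ A ∧ y ∈ A then YA x y else if x ∈ B ∧ y ∈ B then YB x y else 0) = 0 := by
      refine Finset.sum_eq_zero fun y hy => ?_
      have hyA : y ∉ A := Finset.disjoint_right.1 hd hy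
      rw [if_neg (fun h => hyA h.2), if_neg (fun h => hxB h.1), hG]
    rw [h2, add_zero]
    refine Finset.sum_congr rfl fun y hy => ?_
    rw [if_pos ⟨hx, hy⟩]
  · refine Finset.sum_congr rfl fun x hx => ?_
    have hxA : x ∉ A := Finset.disjoint_right.1 hd hx
    rw [Finset.sum_union hd]
    have h2 : ∑ y ∈ A, G x y (if x ∈ A ∧ y ∈ A then YA x y else if x ∈ B ∧ y ∈ B then YB x y else 0) = 0 := by
      refine Finset.sum_eq_zero fun y hy => ?_
      have hyB : y ∉ B := Finset.disjoint_left.1 hd hy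
      rw [if_neg (fun h => hxA h.1), if_neg (fun h => hyB h.2), hG]
    rw [h2, zero_add]
    refine Finset.sum_congr rfl fun y hy => ?_
    rw [if_neg (fun h => hxA h.1), if_pos ⟨hx, hy⟩]

lemma gain_union {Λ : ℝ} {A B : Finset ℝ} {r s : ℝ} (hd : Disjoint A B) (hA : Gain Λ A r) (hB : Gain Λ B s) :
    Gain Λ (A ∪ B) (r + s) := by
  classical
  obtain ⟨YA, hA1, hA2⟩ := hA
  obtain ⟨YB, hB1, hB2⟩ := hB
  refine ⟨fun x y => if x ∈ A ∧ y ∈ A then YA x y else if x ∈ B ∧ y ∈ B then YB x y else 0, fun v => ?_, ?_⟩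
  · have h := sum_split hd YA YB (fun x y c => c * (conj (v x) * v y).re) (fun x y => by simp)
    rw [h, Finset.sum_union hd]
    exact add_le_add (hA1 v) (hB1 v)
  · unfold YT at hA2 hB2 ⊢
    have h1 := sum_split hd YA YB (fun x y c => c * ((phi Λ ((x : ℂ) - y)).re - if x = y then 1 else 0))
      (fun x y => by simp)
    have h2 := sum_split hd YA YB (fun x y c => c ^ 2) (fun x y => by simp)
    rw [h1, h2]
    linarith

lemma gain_subset {Λ : ℝ} {A S : Finset ℝ} {r : ℝ} (hAS : A ⊆ S) (hA : Gain Λ A r) : Gain Λ S r := by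
  classical
  have h := gain_union (Finset.disjoint_sdiff (s := A) (t := S)) hA (gain_zero Λ (S \ A))
  rw [Finset.union_sdiff_of_subset hAS, add_zero] at h
  exact h

lemma gain_biUnion {ι : Type*} [DecidableEq ι] {Λ : ℝ} (I : Finset ι) (B : ι → Finset ℝ) (r : ι → ℝ)
    (hd : ∀ i ∈ I, ∀ j ∈ I, i ≠ j → Disjoint (B i) (B j)) (h : ∀ i ∈ I, Gain Λ (B i) (r i)) :
    Gain Λ (I.biUnion B) (∑ i ∈ I, r i) := by
  classical
  induction I using Finset.induction_on with
  | empty => simpa using gain_zero Λ ∅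
  | insert a I ha ih =>
    rw [Finset.biUnion_insert, Finset.sum_insert ha]
    refine gain_union ?_ (h a (Finset.mem_insert_self a I)) (ih ?_ ?_)
    · rw [Finset.disjoint_biUnion_right]
      intro i hi
      exact hd a (Finset.mem_insert_self a I) i (Finset.mem_insert_of_mem hi) (fun hai => ha (hai ▸ hi))
    · exact fun i hi j hj hij => hd i (Finset.mem_insert_of_mem hi) j (Finset.mem_insert_of_mem hj) hij
    · exact fun i hi => h i (Finset.mem_insert_of_mem hi)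

/-- a pair of points -/
lemma gain_pair {Λ x y κ : ℝ} (hxy : x ≠ y) (hκ : 0 ≤ κ) (h : κ ≤ (phi Λ ((x : ℂ) - y)).re) :
    Gain Λ {x, y} (2 * κ ^ 2) := by
  classical
  refine ⟨yt Λ 1, fun v => yt_block Λ 1 1 (by norm_num) (by norm_num) _ Finset.card_le_two v, ?_⟩
  rw [YT_yt]
  have hx : x ∉ ({y} : Finset ℝ) := by simp [hxy]
  simp only [Finset.sum_insert hx, Finset.sum_singleton, if_true, if_neg hxy, if_neg hxy.symm]
  rw [phi_sub_symm Λ y x]
  nlinarith [pow_le_pow_left₀ hκ h 2]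

/-- three points -/
lemma gain_triple {Λ x1 x2 x3 κ : ℝ} (h12 : x1 < x2) (h23 : x2 < x3) (hκ : 0 ≤ κ)
    (h1 : κ ≤ (phi Λ ((x2 : ℂ) - x1)).re) (h2 : κ ≤ (phi Λ ((x3 : ℂ) - x2)).re) :
    Gain Λ {x1, x2, x3} (3 * κ ^ 2) := by
  refine ⟨yt Λ (1 / 2), fun v => yt_block Λ (1 / 2) 2 (by norm_num) (by norm_num) _ Finset.card_le_three v, ?_⟩
  rw [YT_triple Λ _ _ _ _ h12 h23]
  nlinarith [pow_le_pow_left₀ hκ h1 2, pow_le_pow_left₀ hκ h2 2, sq_nonneg ((phi Λ ((x3 : ℂ) - x1)).re)]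

lemma conj_re_sum (B : Finset ℝ) (v : ℝ → ℂ) :
    ∑ x ∈ B, ∑ y ∈ B, (conj (v x) * v y).re = ‖∑ x ∈ B, v x‖ ^ 2 := by
  have h1 : ∑ x ∈ B, ∑ y ∈ B, (conj (v x) * v y).re = (conj (∑ x ∈ B, v x) * ∑ y ∈ B, v y).re := by
    rw [map_sum, Finset.sum_mul, Complex.re_sum]
    refine Finset.sum_congr rfl fun x _ => ?_
    rw [Finset.mul_sum, Complex.re_sum]
  rw [h1, ← Complex.normSq_eq_norm_sq, mul_comm, Complex.mul_conj, Complex.ofReal_re]

/-- a cluster of points with large values of the kernel -/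
lemma gain_cluster {Λ κ : ℝ} {B : Finset ℝ} (hB : 1 ≤ B.card) (hκ : 0 ≤ κ)
    (h : ∀ x ∈ B, ∀ y ∈ B, x ≠ y → κ ≤ (phi Λ ((x : ℂ) - y)).re) :
    Gain Λ B (((B.card : ℝ) - 1) * (2 * κ + κ ^ 2) - 1) := by
  classical
  set s : ℝ := (B.card : ℝ) with hs
  have hs1 : (1 : ℝ) ≤ s := by rw [hs]; exact_mod_cast hB
  have hs0 : 0 < s := by linarith
  set t : ℝ := (1 + κ) / s with ht
  have ht0 : 0 ≤ t := by positivity
  have hts : t * s = 1 + κ := by rw [ht]; field_simp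
  refine ⟨fun x y => t - (if x = y then κ else 0), fun v => ?_, ?_⟩
  · have h1 : ∑ x ∈ B, ∑ y ∈ B, (t - (if x = y then κ else 0)) * (conj (v x) * v y).re =
        t * ‖∑ x ∈ B, v x‖ ^ 2 - κ * ∑ x ∈ B, ‖v x‖ ^ 2 := by
      rw [← conj_re_sum, Finset.mul_sum, Finset.mul_sum, ← Finset.sum_sub_distrib]
      refine Finset.sum_congr rfl fun x hx => ?_
      have h2 : κ * ‖v x‖ ^ 2 = ∑ y ∈ B, (if x = y then κ else 0) * (conj (v x) * v y).re := by
        rw [Finset.sum_eq_single x]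
        · rw [if_pos rfl, ← Complex.normSq_eq_norm_sq, mul_comm (conj (v x)) (v x), Complex.mul_conj,
            Complex.ofReal_re]
        · intro y _ hyx
          rw [if_neg hyx.symm, zero_mul]
        · intro hx'
          exact absurd hx hx'
      rw [h2, Finset.mul_sum, ← Finset.sum_sub_distrib]
      refine Finset.sum_congr rfl fun y _ => ?_
      ring
    rw [h1]
    have h2 : ‖∑ x ∈ B, v x‖ ^ 2 ≤ s * ∑ x ∈ B, ‖v x‖ ^ 2 := by
      calc ‖∑ x ∈ B, v x‖ ^ 2 ≤ (∑ x ∈ B, ‖v x‖) ^ 2 :=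
            pow_le_pow_left₀ (norm_nonneg _) (norm_sum_le _ _) 2
        _ ≤ s * ∑ x ∈ B, ‖v x‖ ^ 2 := sq_sum_le_card_mul_sum_sq
    have h3 : 0 ≤ ∑ x ∈ B, ‖v x‖ ^ 2 := Finset.sum_nonneg fun x _ => by positivity
    calc t * ‖∑ x ∈ B, v x‖ ^ 2 - κ * ∑ x ∈ B, ‖v x‖ ^ 2
        ≤ t * (s * ∑ x ∈ B, ‖v x‖ ^ 2) - κ * ∑ x ∈ B, ‖v x‖ ^ 2 := by
          have := mul_le_mul_of_nonneg_left h2 ht0
          linarith
      _ = (t * s - κ) * ∑ x ∈ B, ‖v x‖ ^ 2 := by ring
      _ = ∑ x ∈ B, ‖v x‖ ^ 2 := by rw [hts]; ring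
  · unfold YT
    have h1 : ∀ x ∈ B, ∀ y ∈ B, (if x = y then -(t - κ) ^ 2 else 2 * t * κ - t ^ 2) ≤
        2 * ((t - (if x = y then κ else 0)) * ((phi Λ ((x : ℂ) - y)).re - if x = y then 1 else 0)) -
          (t - (if x = y then κ else 0)) ^ 2 := by
      intro x hx y hy
      by_cases hxy : x = y
      · subst hxy
        simp only [if_true, sub_self, phi_zero, Complex.one_re]
        linarith
      · simp only [if_neg hxy, sub_zero]
        have h2 := h x hx y hy hxy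
        nlinarith
    have h2 : ∑ x ∈ B, ∑ y ∈ B, (if x = y then -(t - κ) ^ 2 else 2 * t * κ - t ^ 2) =
        s * (-(t - κ) ^ 2) + s * (s - 1) * (2 * t * κ - t ^ 2) := by
      have h3 : ∀ x ∈ B, ∑ y ∈ B, (if x = y then -(t - κ) ^ 2 else 2 * t * κ - t ^ 2) =
          -(t - κ) ^ 2 + (s - 1) * (2 * t * κ - t ^ 2) := by
        intro x hx
        rw [← Finset.add_sum_erase B _ hx, if_pos rfl]
        congr 1
        have h4 : ∑ y ∈ B.erase x, (if x = y then -(t - κ) ^ 2 else 2 * t * κ - t ^ 2) =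
            ∑ _y ∈ B.erase x, (2 * t * κ - t ^ 2) := by
          refine Finset.sum_congr rfl fun y hy => ?_
          rw [if_neg (Finset.ne_of_mem_erase hy).symm]
        rw [h4, Finset.sum_const, Finset.card_erase_of_mem hx, nsmul_eq_mul, Nat.cast_sub hB, Nat.cast_one]
      rw [Finset.sum_congr rfl h3, Finset.sum_const, nsmul_eq_mul]
      ring
    have h3 : s * (-(t - κ) ^ 2) + s * (s - 1) * (2 * t * κ - t ^ 2) =
        (s - 1) * (2 * κ + κ ^ 2) - 1 := by
      have e : s * (-(t - κ) ^ 2) + s * (s - 1) * (2 * t * κ - t ^ 2) =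
          2 * (t * s) * κ - s * κ ^ 2 + 2 * (s - 1) * (t * s) * κ - t * (t * s) - (s - 1) * t * (t * s) := by ring
      rw [e, hts]
      have e2 : 2 * (1 + κ) * κ - s * κ ^ 2 + 2 * (s - 1) * (1 + κ) * κ - t * (1 + κ) - (s - 1) * t * (1 + κ) =
          2 * (1 + κ) * κ - s * κ ^ 2 + 2 * (s - 1) * (1 + κ) * κ - (t * s) * (1 + κ) := by ring
      rw [e2, hts]
      ring
    rw [← h3, ← h2, Finset.mul_sum, ← Finset.sum_sub_distrib]
    refine Finset.sum_le_sum fun x hx => ?_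
    rw [Finset.mul_sum, ← Finset.sum_sub_distrib]
    exact Finset.sum_le_sum fun y hy => h1 x hx y hy

end Pool.Agent.Q34.SP
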