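import Pool.Agent.Q34.SP.Gain
import Pool.Agent.H370R2.Expl1

/-!
# Values of the Montgomery-Taylor kernel
-/

set_option autoImplicit false

open Complex Filter Topology Set MeasureTheory
open scoped BigOperators ComplexConjugate

namespace Pool.Agent.Q34.SP

open H370 H370.Expl H370.GramAux

lemma KK_anti {a b : ℝ} (ha : 0 ≤ a) (hab : a ≤ b) (hb : b ≤ 2 * Real.pi) : KK b ≤ KK a := by
  unfold KK
  rw [kap_re, kap_re]
  refine intervalIntegral.integral_mono_on (by norm_num) ?_ ?_ ?_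
  · apply Continuous.intervalIntegrable
    have := g0_cont
    fun_prop
  · apply Continuous.intervalIntegrable
    have := g0_cont
    fun_prop
  · intro t ht
    refine mul_le_mul_of_nonneg_left ?_ (g0_nonneg ht.1 ht.2)
    rw [← Real.cos_abs (b * t), ← Real.cos_abs (a * t), abs_mul, abs_mul, abs_of_nonneg (ha.trans hab),
      abs_of_nonneg ha]
    have ht1 : |t| ≤ 1 / 2 := abs_le.mpr ⟨by linarith [ht.1], ht.2⟩
    have ht0 := abs_nonneg t
    apply Real.cos_le_cos_of_nonneg_of_le_pi (by positivity)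
    · have := Real.pi_pos
      nlinarith
    · exact mul_le_mul_of_nonneg_right hab ht0

lemma sin_pi24 : Real.sin (Real.pi / 24) ≤ Real.pi / 24 := Real.sin_le (by positivity)

lemma cos_pi24 : 1 - (Real.pi / 24) ^ 2 / 2 ≤ Real.cos (Real.pi / 24) := Real.one_sub_sq_div_two_le_cos

/-- the kernel at `11/24` of the mean spacing -/
lemma KK_one : 0.708 ≤ KK (11 * Real.pi / 12) := by
  have h1 := Real.pi_gt_d4
  have h2 := Real.pi_lt_d4
  have hq := qq_pos
  have hq1 := qq_lt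
  have hs := sin_pi24
  have hc := cos_pi24
  have hs0 : 0 ≤ Real.sin (Real.pi / 24) := Real.sin_nonneg_of_nonneg_of_le_pi (by positivity) (by linarith)
  have h := KK_eq (11 * Real.pi / 12)
  unfold PPx at h
  have e1 : Real.sin (11 * Real.pi / 12 / 2) = Real.cos (Real.pi / 24) := by
    rw [← Real.cos_pi_div_two_sub]
    congr 1
    ring
  have e2 : Real.cos (11 * Real.pi / 12 / 2) = Real.sin (Real.pi / 24) := by
    rw [← Real.sin_pi_div_two_sub]
    congr 1
    ring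
  rw [e1, e2] at h
  by_contra hcon
  push Not at hcon
  have hx2 : 6.29 < (11 * Real.pi / 12) ^ 2 - 2 := by nlinarith
  have hx3 : (11 * Real.pi / 12) ^ 2 - 2 < 6.29333 := by nlinarith
  have h3 : qq * ((11 * Real.pi / 12) ^ 2 - 2) * KK (11 * Real.pi / 12) ≤
      qq * ((11 * Real.pi / 12) ^ 2 - 2) * 0.708 :=
    mul_le_mul_of_nonneg_left hcon.le (by positivity)
  have h4 : qq * ((11 * Real.pi / 12) ^ 2 - 2) * 0.708 ≤ 1.21 * 6.29333 * 0.708 := by
    apply mul_le_mul_of_nonneg_right _ (by norm_num)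
    exact mul_le_mul hq1 hx3.le (by linarith) (by norm_num)
  have h5 : 11 * Real.pi / 12 * (1 - (Real.pi / 24) ^ 2 / 2) ≤ 11 * Real.pi / 12 * Real.cos (Real.pi / 24) :=
    mul_le_mul_of_nonneg_left hc (by positivity)
  have h6 : qq * Real.sin (Real.pi / 24) ≤ 1.21 * (Real.pi / 24) :=
    mul_le_mul hq1 hs hs0 (by norm_num)
  have h7 : 2.8550 ≤ 11 * Real.pi / 12 * (1 - (Real.pi / 24) ^ 2 / 2) := by
    have a1 : (Real.pi / 24) ^ 2 / 2 ≤ 0.008568 := by nlinarith
    have a2 : (2.8797 : ℝ) ≤ 11 * Real.pi / 12 := by linarith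
    nlinarith
  linarith

/-- the kernel at half the mean spacing -/
lemma KK_half : 0.659 ≤ KK Real.pi := by
  have h1 := Real.pi_gt_d4
  have h2 := Real.pi_lt_d4
  have hq := qq_pos
  have hq1 := qq_lt
  have h := KK_eq Real.pi
  unfold PPx at h
  rw [Real.sin_pi_div_two, Real.cos_pi_div_two] at h
  by_contra hcon
  push Not at hcon
  have hx2 : 7.8 < Real.pi ^ 2 - 2 := by nlinarith
  have hx3 : Real.pi ^ 2 - 2 < 7.8697 := by nlinarith
  have h3 : qq * (Real.pi ^ 2 - 2) * KK Real.pi ≤ qq * (Real.pi ^ 2 - 2) * 0.659 :=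
    mul_le_mul_of_nonneg_left hcon.le (by positivity)
  have h4 : qq * (Real.pi ^ 2 - 2) * 0.659 ≤ 1.21 * 7.8697 * 0.659 := by
    apply mul_le_mul_of_nonneg_right _ (by norm_num)
    exact mul_le_mul hq1 hx3.le (by linarith) (by norm_num)
  linarith

/-- the kernel at `13/24` of the mean spacing -/
lemma KK_more : 0.6 ≤ KK (13 * Real.pi / 12) := by
  have h1 := Real.pi_gt_d4
  have h2 := Real.pi_lt_d4
  have hq := qq_pos
  have hq1 := qq_lt
  have hc := cos_pi24
  have hs : 0.13 ≤ Real.sin (Real.pi / 24) := by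
    have h3 := Real.sin_gt_sub_cube (x := Real.pi / 24) (by positivity)
    have h4 : (Real.pi / 24) ^ 3 / 6 ≤ 0.0004 := by
      have h5 : Real.pi / 24 ≤ 0.131 := by linarith
      have h6 : (Real.pi / 24) ^ 3 ≤ 0.131 ^ 3 := pow_le_pow_left₀ (by positivity) h5 3
      norm_num at h6 ⊢
      linarith
    have h7 : (0.1308 : ℝ) ≤ Real.pi / 24 := by linarith
    linarith
  have h := KK_eq (13 * Real.pi / 12)
  unfold PPx at h
  have e1 : Real.sin (13 * Real.pi / 12 / 2) = Real.cos (Real.pi / 24) := by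
    rw [← Real.sin_add_pi_div_two]
    congr 1
    ring
  have e2 : Real.cos (13 * Real.pi / 12 / 2) = -Real.sin (Real.pi / 24) := by
    rw [← Real.cos_add_pi_div_two]
    congr 1
    ring
  rw [e1, e2] at h
  by_contra hcon
  push Not at hcon
  have hx2 : 9.5 < (13 * Real.pi / 12) ^ 2 - 2 := by nlinarith
  have hx3 : (13 * Real.pi / 12) ^ 2 - 2 < 9.5834 := by nlinarith
  have h3 : qq * ((13 * Real.pi / 12) ^ 2 - 2) * KK (13 * Real.pi / 12) ≤
      qq * ((13 * Real.pi / 12) ^ 2 - 2) * 0.6 :=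
    mul_le_mul_of_nonneg_left hcon.le (by positivity)
  have h4 : qq * ((13 * Real.pi / 12) ^ 2 - 2) * 0.6 ≤ qq * (9.5834 * 0.6) := by
    rw [mul_assoc]
    apply mul_le_mul_of_nonneg_left _ hq.le
    linarith
  have h5 : 13 * Real.pi / 12 * (1 - (Real.pi / 24) ^ 2 / 2) ≤ 13 * Real.pi / 12 * Real.cos (Real.pi / 24) :=
    mul_le_mul_of_nonneg_left hc (by positivity)
  have h6 : qq * 0.13 ≤ qq * Real.sin (Real.pi / 24) := mul_le_mul_of_nonneg_left hs hq.le
  have h7 : 3.374 ≤ 13 * Real.pi / 12 * (1 - (Real.pi / 24) ^ 2 / 2) := by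
    have a1 : (Real.pi / 24) ^ 2 / 2 ≤ 0.008568 := by nlinarith
    have a2 : (3.4032 : ℝ) ≤ 13 * Real.pi / 12 := by linarith
    nlinarith
  nlinarith

/-- lower bound for the damped kernel -/
lemma phi_lower {Λ x y κ x0 : ℝ} (hΛ : 0 ≤ Λ) (h1 : Λ * |x - y| ≤ x0) (hx0 : x0 ≤ 2 * Real.pi)
    (hκ0 : 0 ≤ κ) (hκ : κ ≤ KK x0) (hw : (x - y) ^ 2 ≤ 8 / 10 ^ 4) :
    κ * (1 - 1 / 10 ^ 4) ≤ (phi Λ ((x : ℂ) - y)).re := by
  rw [phi_sub_re]
  have h2 : (kap ((Λ * (x - y) : ℝ) : ℂ)).re = KK (Λ * |x - y|) := by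
    unfold KK
    rcases le_total 0 (x - y) with h | h
    · rw [abs_of_nonneg h]
    · rw [abs_of_nonpos h, ← kap_even]
      congr 2
      push_cast
      ring
  rw [h2]
  have h3 : κ ≤ KK (Λ * |x - y|) := hκ.trans (KK_anti (by positivity) h1 hx0)
  have h4 : 1 - 1 / 10 ^ 4 ≤ Real.exp (-(x - y) ^ 2 / 8) := by
    have := Real.add_one_le_exp (-(x - y) ^ 2 / 8)
    refine le_trans ?_ this
    norm_num at hw ⊢
    linarith
  exact mul_le_mul h3 h4 (by norm_num) (hκ0.trans h3)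

end Pool.Agent.Q34.SP
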